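import Mathlib

/-!
# Vertices of small degree in 3-edge-critical graphs
-/

set_option linter.unusedVariables false
set_option linter.unusedSectionVars false

namespace Pool.Agent.Results.MP_39baa9_co.SmallDegree

open Finset

/-- `S` is dominating: every vertex outside `S` has a neighbour in `S`. -/
def Dominating {V : Type} (G : SimpleGraph V) (S : Finset V) : Prop :=
  ∀ v, v ∉ S → ∃ u ∈ S, G.Adj u v

/-- The domination number: the minimum size of a dominating set. -/
noncomputable def domNum {V : Type} (G : SimpleGraph V) : ℕ :=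
  sInf {k | ∃ S : Finset V, Dominating G S ∧ S.card = k}

/-- `k`-edge-critical: `γ(G) = k` and adding any missing edge lowers the domination number. -/
def EdgeCritical {V : Type} (k : ℕ) (G : SimpleGraph V) : Prop :=
  domNum G = k ∧ ∀ u v, u ≠ v → ¬ G.Adj u v → domNum (G ⊔ SimpleGraph.edge u v) < k

/-- `d_r(G)`: the number of vertices of degree at most `r`. -/
noncomputable def lowDeg {V : Type} (G : SimpleGraph V) (r : ℕ) : ℕ :=
  {v : V | (G.neighborSet v).ncard ≤ r}.ncard

section core

variable {V : Type} [Fintype V] [DecidableEq V] (G : SimpleGraph V)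

/-- `{u, z}` dominates everything except `v` -/
def P (u z v : V) : Prop :=
  z ≠ v ∧ ¬ G.Adj z v ∧ ∀ w, w ≠ v → w = u ∨ w = z ∨ G.Adj u w ∨ G.Adj z w

lemma gamma_three (h : EdgeCritical 3 G) (a b : V) :
    ∃ w, w ≠ a ∧ w ≠ b ∧ ¬ G.Adj a w ∧ ¬ G.Adj b w := by
  by_contra hcon
  push Not at hcon
  have h1 : domNum G ≤ ({a, b} : Finset V).card := by
    apply Nat.sInf_le
    refine ⟨{a, b}, ?_, rfl⟩
    intro v hv
    simp only [mem_insert, mem_singleton, not_or] at hv
    by_cases h2 : G.Adj a v
    · exact ⟨a, by simp, h2⟩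
    · exact ⟨b, by simp, hcon v hv.1 hv.2 h2⟩
  have h2 : ({a, b} : Finset V).card ≤ 2 := Finset.card_le_two
  have := h.1
  omega

lemma crit_pair (h : EdgeCritical 3 G) (u v : V) (huv : u ≠ v) (hadj : ¬ G.Adj u v) :
    (∃ z, P G u z v) ∨ (∃ z, P G v z u) := by
  have h3 := h.2 u v huv hadj
  set G' := G ⊔ SimpleGraph.edge u v with hG'
  have : Nonempty V := ⟨u⟩
  have hne : {k | ∃ S : Finset V, Dominating G' S ∧ S.card = k}.Nonempty :=
    ⟨_, Finset.univ, fun v hv => absurd (Finset.mem_univ v) hv, rfl⟩
  obtain ⟨S, hS, hcard⟩ := Nat.sInf_mem hne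
  have hcard2 : S.card ≤ 2 := by
    have : domNum G' = S.card := by rw [hcard]; rfl
    omega
  -- S does not dominate G
  have hnot : ¬ Dominating G S := by
    intro hd
    have : domNum G ≤ S.card := Nat.sInf_le ⟨S, hd, rfl⟩
    have := h.1
    omega
  unfold Dominating at hnot
  push Not at hnot
  obtain ⟨w, hwS, hw⟩ := hnot
  obtain ⟨s, hsS, hs⟩ := hS w hwS
  have hs' : (SimpleGraph.edge u v).Adj s w := by
    rcases hs with hs | hs
    · exact absurd hs (hw s hsS)
    · exact hs
  rw [SimpleGraph.edge_adj] at hs'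
  -- general statement
  have key : ∀ p q : V, p ≠ q → p ∈ S → q ∉ S → (∀ t ∈ S, ¬ G.Adj t q) →
      (∀ x y, G'.Adj x y → G.Adj x y ∨ (x = p ∧ y = q) ∨ (x = q ∧ y = p)) → ∃ z, P G p z q := by
    intro p q hpq hp hq hnq hG
    obtain ⟨z, hz⟩ : ∃ z, z ∈ S ∧ S ⊆ {p, z} := by
      have h4 : (S.erase p).card ≤ 1 := by
        rw [Finset.card_erase_of_mem hp]; omega
      rcases Finset.card_le_one_iff_subset_singleton.mp h4 with ⟨z, hz⟩
      by_cases hzS : z ∈ S
      · refine ⟨z, hzS, ?_⟩
        intro x hx
        by_cases hxp : x = p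
        · simp [hxp]
        · have := hz (Finset.mem_erase.mpr ⟨hxp, hx⟩)
          simp at this
          simp [this]
      · refine ⟨p, hp, ?_⟩
        intro x hx
        by_cases hxp : x = p
        · simp [hxp]
        · have := hz (Finset.mem_erase.mpr ⟨hxp, hx⟩)
          simp at this
          rw [this] at hx
          exact absurd hx hzS
    refine ⟨z, ?_, hnq z hz.1, ?_⟩
    · intro h; rw [h] at hz; exact hq hz.1
    · intro w' hw'
      by_cases hw'S : w' ∈ S
      · have := hz.2 hw'S
        simp at this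
        tauto
      · obtain ⟨t, htS, ht⟩ := hS w' hw'S
        have ht2 := hz.2 htS
        simp at ht2
        rcases hG t w' ht with h5 | h5 | h5
        · rcases ht2 with h6 | h6
          · rw [h6] at h5; tauto
          · rw [h6] at h5; tauto
        · exact absurd h5.2 hw'
        · rw [h5.1] at htS; exact absurd htS hq
  have hGadj : ∀ x y, G'.Adj x y → G.Adj x y ∨ (x = u ∧ y = v) ∨ (x = v ∧ y = u) := by
    intro x y hxy
    rcases hxy with h5 | h5
    · exact Or.inl h5
    · rw [SimpleGraph.edge_adj] at h5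
      tauto
  rcases hs'.1 with ⟨h5, h6⟩ | ⟨h5, h6⟩
  · left
    subst h5 h6
    exact key s w huv hsS hwS hw hGadj
  · right
    subst h5 h6
    exact key s w (Ne.symm huv) hsS hwS hw (fun x y h => by have := hGadj x y h; tauto)

variable (D : Finset V)

open Classical in
/-- non-neighbours of `v` inside `D` -/
noncomputable def Qn (v : V) : Finset V := D.filter (fun y => y ≠ v ∧ ¬ G.Adj v y)

open Classical in
/-- neighbours of `v` outside `D` -/
noncomputable def out (v : V) : Finset V := univ.filter (fun w => w ∉ D ∧ G.Adj v w)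

open Classical in
/-- neighbours of `v` -/
noncomputable def nb (v : V) : Finset V := univ.filter (fun w => G.Adj v w)

lemma mem_Qn {v y : V} : y ∈ Qn G D v ↔ y ∈ D ∧ y ≠ v ∧ ¬ G.Adj v y := by
  simp [Qn]

lemma mem_out {v w : V} : w ∈ out G D v ↔ w ∉ D ∧ G.Adj v w := by
  simp [out]

lemma out_le {r : ℕ} (hD : D.card = r + 1) {v : V} (hv : v ∈ D) (hdeg : (nb G v).card ≤ r) :
    (out G D v).card ≤ (Qn G D v).card := by
  classical
  have h1 : (D.erase v).card = r := by rw [Finset.card_erase_of_mem hv]; omega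
  have h2 := Finset.card_filter_add_card_filter_not (s := D.erase v) (fun y => G.Adj v y)
  have h3 : ((D.erase v).filter (fun y => ¬ G.Adj v y)) = Qn G D v := by
    ext y
    simp only [mem_filter, mem_erase, mem_Qn]
    tauto
  have h4 : ((D.erase v).filter (fun y => G.Adj v y)) ∪ out G D v ⊆ nb G v := by
    intro y
    simp only [mem_union, mem_filter, mem_erase, mem_out, nb, mem_univ, true_and]
    tauto
  have h5 : Disjoint ((D.erase v).filter (fun y => G.Adj v y)) (out G D v) := by
    rw [Finset.disjoint_left]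
    intro y
    simp only [mem_filter, mem_erase, mem_out]
    tauto
  have h6 := Finset.card_le_card h4
  rw [Finset.card_union_of_disjoint h5] at h6
  rw [h3] at h2
  omega

lemma even_of_matching (D1 : Finset V) (g : V → V) (h1 : ∀ v ∈ D1, g v ∈ D1)
    (h2 : ∀ v ∈ D1, g (g v) = v) (h3 : ∀ v ∈ D1, g v ≠ v) : Even D1.card := by
  have h := Finset.sum_involution (s := D1) (f := fun _ => (1 : ZMod 2)) (fun a _ => g a)
    (fun a _ => by decide) (fun a ha _ => h3 a ha) (fun a ha => h1 a ha) (fun a ha => h2 a ha)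
  simp only [Finset.sum_const, nsmul_eq_mul, mul_one] at h
  exact (ZMod.natCast_eq_zero_iff_even).1 h

lemma Qn_symm {v y : V} (hv : v ∈ D) (h : y ∈ Qn G D v) : v ∈ Qn G D y := by
  rw [mem_Qn] at h ⊢
  exact ⟨hv, fun h1 => h.2.1 h1.symm, fun h1 => h.2.2 h1.symm⟩

/-- vertices of `D` having a non-neighbour in `D` -/
noncomputable def D1 : Finset V := by
  classical exact D.filter (fun v => (Qn G D v).Nonempty)

lemma mem_D1 {v : V} : v ∈ D1 G D ↔ v ∈ D ∧ (Qn G D v).Nonempty := by
  simp [D1]

lemma parity (h : ∀ v ∈ D1 G D, (Qn G D v).card = 1) : Even (D1 G D).card := by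
  have h' : ∀ v, ∃ g, v ∈ D1 G D → Qn G D v = {g} := by
    intro v
    by_cases hv : v ∈ D1 G D
    · obtain ⟨g, hg⟩ := Finset.card_eq_one.1 (h v hv)
      exact ⟨g, fun _ => hg⟩
    · exact ⟨v, fun h => absurd h hv⟩
  choose g hg using h'
  have hgm : ∀ v ∈ D1 G D, g v ∈ Qn G D v := by
    intro v hv; rw [hg v hv]; simp
  have hg1 : ∀ v ∈ D1 G D, g v ∈ D1 G D := by
    intro v hv
    rw [mem_D1]
    exact ⟨((mem_Qn G D).1 (hgm v hv)).1, ⟨v, Qn_symm G D ((mem_D1 G D).1 hv).1 (hgm v hv)⟩⟩
  apply even_of_matching (D1 G D) g hg1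
  · intro v hv
    have h1 := Qn_symm G D ((mem_D1 G D).1 hv).1 (hgm v hv)
    rw [hg _ (hg1 v hv)] at h1
    simp at h1
    exact h1.symm
  · intro v hv
    exact ((mem_Qn G D).1 (hgm v hv)).2.1

theorem core {r : ℕ} (hr4 : 4 ≤ r) (hre : Even r) (hn : 2 * (r + 1) ^ 2 ≤ Fintype.card V)
    (hconn : ∀ A : Finset V, A.Nonempty → A ≠ univ → ∃ a ∈ A, ∃ b, b ∉ A ∧ G.Adj a b)
    (hγ : ∀ a b, ∃ w, w ≠ a ∧ w ≠ b ∧ ¬ G.Adj a w ∧ ¬ G.Adj b w)
    (hcrit : ∀ u v, u ≠ v → ¬ G.Adj u v → (∃ z, P G u z v) ∨ (∃ z, P G v z u))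
    (hD : D.card = r + 1) (hdeg : ∀ v ∈ D, (nb G v).card ≤ r) : False := by
  classical
  have hout : ∀ v ∈ D, (out G D v).card ≤ (Qn G D v).card := fun v hv =>
    out_le G D hD hv (hdeg v hv)
  have hQr : ∀ v ∈ D, (Qn G D v).card ≤ r := by
    intro v hv
    have h1 : Qn G D v ⊆ D.erase v := by
      intro y hy
      rw [mem_Qn] at hy
      exact Finset.mem_erase.2 ⟨hy.2.1, hy.1⟩
    have h2 := Finset.card_le_card h1
    rw [Finset.card_erase_of_mem hv] at h2
    omega
  have houtr : ∀ v ∈ D, (out G D v).card ≤ r := fun v hv => (hout v hv).trans (hQr v hv)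
  set U : Finset V := univ.filter (fun u => u ∉ D ∧ ∀ v ∈ D, ¬ G.Adj v u) with hU
  have memU : ∀ u, u ∈ U ↔ u ∉ D ∧ ∀ v ∈ D, ¬ G.Adj v u := by
    intro u; simp [hU]
  have hUcard : (r + 1) * (r + 1) ≤ U.card := by
    have h1 : (univ : Finset V) ⊆ (D ∪ D.biUnion (out G D)) ∪ U := by
      intro u _
      by_cases hu : u ∈ D
      · simp [hu]
      · by_cases hu2 : ∃ v ∈ D, G.Adj v u
        · obtain ⟨v, hv, hvu⟩ := hu2
          simp only [mem_union, mem_biUnion]
          left; right
          exact ⟨v, hv, (mem_out G D).2 ⟨hu, hvu⟩⟩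
        · push Not at hu2
          simp only [mem_union]
          right
          exact (memU u).2 ⟨hu, hu2⟩
    have h2 := Finset.card_le_card h1
    have h3 := Finset.card_union_le (D ∪ D.biUnion (out G D)) U
    have h4 := Finset.card_union_le D (D.biUnion (out G D))
    have h5 := Finset.card_biUnion_le_card_mul D (out G D) r houtr
    rw [Finset.card_univ] at h2
    rw [hD] at h4 h5
    nlinarith
  have hbig : ∀ y ∈ D, ∀ z ∈ D, ∀ u, P G y z u → False := by
    intro y hy z hz u hP
    have h1 : (univ : Finset V) ⊆ (nb G y ∪ nb G z) ∪ {y, z, u} := by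
      intro w _
      by_cases hw : w = u
      · simp [hw]
      · rcases hP.2.2 w hw with h | h | h | h
        · simp [h]
        · simp [h]
        · simp [nb, h]
        · simp [nb, h]
    have h2 := Finset.card_le_card h1
    have h3 := Finset.card_union_le (nb G y ∪ nb G z) {y, z, u}
    have h4 := Finset.card_union_le (nb G y) (nb G z)
    have h5 : ({y, z, u} : Finset V).card ≤ 3 := Finset.card_le_three
    have h6 := hdeg y hy
    have h7 := hdeg z hz
    rw [Finset.card_univ] at h2
    nlinarith
  have hfa : ∀ y ∈ D, ∀ u ∈ U, ∀ z, P G y z u → ∀ y' ∈ Qn G D y, z ∈ out G D y' := by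
    intro y hy u hu z hP y' hy'
    have hzD : z ∉ D := fun hz => hbig y hy z hz u hP
    rw [mem_Qn] at hy'
    have hne : y' ≠ u := by
      intro h; rw [h] at hy'; exact ((memU u).1 hu).1 hy'.1
    rcases hP.2.2 y' hne with h | h | h | h
    · exact absurd h hy'.2.1
    · rw [h] at hy'; exact absurd hy'.1 hzD
    · exact absurd h hy'.2.2
    · exact (mem_out G D).2 ⟨hzD, h.symm⟩
  -- the generic vertex
  obtain ⟨u0, hu0, hu0'⟩ : ∃ u0 ∈ U, ∀ y ∈ D, (Qn G D y).Nonempty → ∀ z, ¬ P G y z u0 := by
    by_contra hcon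
    push Not at hcon
    have hc' : ∀ y, ∃ c, (y ∈ D → c ∈ D) ∧ ((Qn G D y).Nonempty → c ∈ Qn G D y) := by
      intro y
      by_cases h : (Qn G D y).Nonempty
      · obtain ⟨c, hc⟩ := h
        exact ⟨c, fun _ => ((mem_Qn G D).1 hc).1, fun _ => hc⟩
      · exact ⟨y, fun h => h, fun h' => absurd h' h⟩
    choose c hc1 hc2 using hc'
    have hf : ∀ u, ∃ p : V × V, u ∈ U → p.1 ∈ D ∧ (Qn G D p.1).Nonempty ∧ P G p.1 p.2 u := by
      intro u
      by_cases hu : u ∈ U
      · obtain ⟨y, hy, hy2, z, hz⟩ := hcon u hu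
        exact ⟨(y, z), fun _ => ⟨hy, hy2, hz⟩⟩
      · exact ⟨(u, u), fun h => absurd h hu⟩
    choose f hf using hf
    set T : Finset (V × V) := D.biUnion (fun y => (out G D (c y)).image (fun z => (y, z))) with hT
    have hTcard : T.card ≤ (r + 1) * r := by
      rw [← hD]
      apply Finset.card_biUnion_le_card_mul
      intro y hy
      exact Finset.card_image_le.trans (houtr _ (hc1 y hy))
    have hmap : ∀ u ∈ U, f u ∈ T := by
      intro u hu
      obtain ⟨h1, h2, h3⟩ := hf u hu
      rw [hT, Finset.mem_biUnion]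
      refine ⟨(f u).1, h1, ?_⟩
      rw [Finset.mem_image]
      exact ⟨(f u).2, hfa _ h1 u hu _ h3 _ (hc2 _ h2), rfl⟩
    have hinj : Set.InjOn f U := by
      intro u hu u' hu' huu
      by_contra hne
      obtain ⟨h1, h2, h3⟩ := hf u hu
      obtain ⟨h1', h2', h3'⟩ := hf u' hu'
      have hmu' := (memU u').1 hu'
      rw [← huu] at h3'
      rcases h3.2.2 u' (fun h => hne h.symm) with h | h | h | h
      · rw [h] at hmu'; exact hmu'.1 h1
      · exact h3'.1 h.symm
      · exact hmu'.2 _ h1 h
      · exact h3'.2.1 h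
    have := Finset.card_le_card_of_injOn f hmap hinj
    nlinarith
  have hu0m := (memU u0).1 hu0
  have hζ' : ∀ y, ∃ z, y ∈ D1 G D → P G u0 z y := by
    intro y
    by_cases hy : y ∈ D1 G D
    · have hy' := (mem_D1 G D).1 hy
      have hne : u0 ≠ y := by
        intro h; rw [h] at hu0m; exact hu0m.1 hy'.1
      rcases hcrit u0 y hne (fun h => hu0m.2 y hy'.1 h.symm) with h | h
      · obtain ⟨z, hz⟩ := h
        exact ⟨z, fun _ => hz⟩
      · obtain ⟨z, hz⟩ := h
        exact absurd hz (hu0' y hy'.1 hy'.2 z)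
    · exact ⟨y, fun h => absurd h hy⟩
  choose ζ hζ using hζ'
  have hζ1 : ∀ y ∈ D1 G D, ∀ v ∈ D, v ≠ y → v = ζ y ∨ G.Adj (ζ y) v := by
    intro y hy v hv hvy
    rcases (hζ y hy).2.2 v hvy with h | h | h | h
    · rw [h] at hv; exact absurd hv hu0m.1
    · exact Or.inl h
    · exact absurd h.symm (hu0m.2 v hv)
    · exact Or.inr h
  have hD1D : D1 G D ⊆ D := fun v hv => ((mem_D1 G D).1 hv).1
  set H : Finset V := (D1 G D).filter (fun y => ζ y ∉ D) with hH
  set L : Finset V := (D1 G D).filter (fun y => ζ y ∈ D) with hL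
  set Lf : Finset V := D.filter (fun v => (Qn G D v).card = 1) with hLf
  have hHL : H.card + L.card = (D1 G D).card := by
    have := Finset.card_filter_add_card_filter_not (s := D1 G D) (fun y => ζ y ∈ D)
    rw [hH, hL]
    omega
  have hHmem : ∀ y, y ∈ H ↔ y ∈ D1 G D ∧ ζ y ∉ D := by intro y; simp [hH]
  have hLmem : ∀ y, y ∈ L ↔ y ∈ D1 G D ∧ ζ y ∈ D := by intro y; simp [hL]
  have hLfmem : ∀ y, y ∈ Lf ↔ y ∈ D ∧ (Qn G D y).card = 1 := by intro y; simp [hLf]
  have hHout' : ∀ v ∈ D, ∀ y ∈ H, y ≠ v → ζ y ∈ out G D v := by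
    intro v hv y hy hyv
    rw [hHmem] at hy
    rcases hζ1 y hy.1 v hv (Ne.symm hyv) with h | h
    · rw [h] at hv; exact absurd hv hy.2
    · exact (mem_out G D).2 ⟨hy.2, h.symm⟩
  have hHinj : Set.InjOn ζ H := by
    intro y hy y' hy' hyy
    by_contra hne
    have hy1 := (hHmem y).1 hy
    have hy1' := (hHmem y').1 hy'
    rcases hζ1 y hy1.1 y' (hD1D hy1'.1) (fun h => hne h.symm) with h | h
    · rw [← h] at hy1; exact hy1.2 (hD1D hy1'.1)
    · rw [hyy] at h; exact (hζ y' hy1'.1).2.1 h
  have hHout : ∀ v ∈ D, (H.erase v).card ≤ (out G D v).card := by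
    intro v hv
    apply Finset.card_le_card_of_injOn ζ
    · intro y hy
      have hy' := Finset.mem_erase.1 (Finset.mem_coe.1 hy)
      exact hHout' v hv y hy'.2 hy'.1
    · exact hHinj.mono (by intro y hy; exact Finset.mem_coe.2 (Finset.mem_of_mem_erase (Finset.mem_coe.1 hy)))
  have hHQ : ∀ v ∈ D, (H.erase v).card ≤ (Qn G D v).card := fun v hv =>
    (hHout v hv).trans (hout v hv)
  have hLQ : ∀ y ∈ L, Qn G D (ζ y) = {y} := by
    intro y hy
    have hy1 := (hLmem y).1 hy
    ext v
    rw [mem_Qn, mem_singleton]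
    constructor
    · rintro ⟨h1, h2, h3⟩
      by_contra hne
      rcases hζ1 y hy1.1 v h1 hne with h | h
      · exact h2 h
      · exact h3 h
    · rintro rfl
      exact ⟨hD1D hy1.1, fun h => (hζ v hy1.1).1 h.symm, (hζ v hy1.1).2.1⟩
  have hLmap : ∀ y ∈ L, ζ y ∈ Lf := by
    intro y hy
    rw [hLfmem, hLQ y hy]
    exact ⟨((hLmem y).1 hy).2, by simp⟩
  have hLinj : Set.InjOn ζ L := by
    intro y hy y' hy' hyy
    have h1 := hLQ y hy
    have h2 := hLQ y' hy'
    rw [hyy, h2] at h1
    simpa using h1.symm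
  have hLcard : L.card ≤ Lf.card := Finset.card_le_card_of_injOn ζ hLmap hLinj
  have hLfD1 : Lf ⊆ D1 G D := by
    intro v hv
    rw [hLfmem] at hv
    rw [mem_D1]
    refine ⟨hv.1, ?_⟩
    rw [← Finset.card_pos]; omega
  have hD1of : (∀ v ∈ D, 1 ≤ (Qn G D v).card) → D1 G D = D := by
    intro h
    apply Finset.Subset.antisymm hD1D
    intro v hv
    rw [mem_D1]
    exact ⟨hv, Finset.card_pos.1 (h v hv)⟩
  have herase : ∀ v, H.card ≤ (H.erase v).card + 1 := by
    intro v
    by_cases hv : v ∈ H
    · rw [Finset.card_erase_of_mem hv]; omega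
    · rw [Finset.erase_eq_of_notMem hv]; omega
  -- case distinction
  rcases Nat.lt_or_ge 2 H.card with hh | hh
  · -- Case I
    have hLf0 : Lf = ∅ := by
      rw [Finset.eq_empty_iff_forall_notMem]
      intro v hv
      rw [hLfmem] at hv
      have h1 := hHQ v hv.1
      have h2 := herase v
      omega
    have hL0 : L.card = 0 := by rw [hLf0] at hLcard; simpa using hLcard
    have hD1 : D1 G D = D := by
      apply hD1of
      intro v hv
      have h1 := hHQ v hv
      have h2 := herase v
      omega
    have hHD : H = D := by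
      apply Finset.eq_of_subset_of_card_le
      · intro v hv; exact hD1D ((hHmem v).1 hv).1
      · rw [hD1] at hHL; omega
    have hζD : ∀ y ∈ D, y ∈ D1 G D ∧ ζ y ∉ D := by
      intro y hy
      rw [← hHD] at hy
      exact (hHmem y).1 hy
    have hζadj : ∀ y ∈ D, ∀ v ∈ D, v ≠ y → G.Adj (ζ y) v := by
      intro y hy v hv hvy
      rcases hζ1 y (hζD y hy).1 v hv hvy with h | h
      · rw [h] at hv; exact absurd hv (hζD y hy).2
      · exact h
    have hQfull : ∀ v ∈ D, Qn G D v = D.erase v := by
      intro v hv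
      apply Finset.eq_of_subset_of_card_le
      · intro y hy
        rw [mem_Qn] at hy
        exact Finset.mem_erase.2 ⟨hy.2.1, hy.1⟩
      · have := hHQ v hv
        rw [hHD] at this
        exact this
    have hindep : ∀ v ∈ D, ∀ y ∈ D, ¬ G.Adj v y := by
      intro v hv y hy hadj
      have h1 : y ∈ Qn G D v := by
        rw [hQfull v hv]
        exact Finset.mem_erase.2 ⟨hadj.ne', hy⟩
      exact ((mem_Qn G D).1 h1).2.2 hadj
    have himg : ∀ v ∈ D, out G D v = (D.erase v).image ζ := by
      intro v hv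
      symm
      apply Finset.eq_of_subset_of_card_le
      · intro w hw
        rw [Finset.mem_image] at hw
        obtain ⟨y, hy, rfl⟩ := hw
        rw [Finset.mem_erase] at hy
        exact (mem_out G D).2 ⟨(hζD y hy.2).2, (hζadj y hy.2 v hv (Ne.symm hy.1)).symm⟩
      · rw [Finset.card_image_of_injOn]
        · rw [← hQfull v hv]
          exact hout v hv
        · exact hHinj.mono (by
            intro y hy
            have := Finset.mem_of_mem_erase (Finset.mem_coe.1 hy)
            rw [hHD]; exact Finset.mem_coe.2 this)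
    have key : ∀ y ∈ D, ∀ y' ∈ D, y ≠ y' → ∀ z, P G y z y' → False := by
      intro y hy y' hy' hne z hP
      have hc : 1 < ((D.erase y).erase y').card := by
        rw [Finset.card_erase_of_mem (Finset.mem_erase.2 ⟨hne.symm, hy'⟩),
          Finset.card_erase_of_mem hy]
        omega
      obtain ⟨v1, hv1, v2, hv2, hv12⟩ := Finset.one_lt_card.1 hc
      rw [Finset.mem_erase, Finset.mem_erase] at hv1 hv2
      have hh1 : v1 = z ∨ G.Adj z v1 := by
        rcases hP.2.2 v1 hv1.1 with h | h | h | h
        · exact absurd h hv1.2.1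
        · exact Or.inl h
        · exact absurd h (hindep y hy v1 hv1.2.2)
        · exact Or.inr h
      have hh2 : v2 = z ∨ G.Adj z v2 := by
        rcases hP.2.2 v2 hv2.1 with h | h | h | h
        · exact absurd h hv2.2.1
        · exact Or.inl h
        · exact absurd h (hindep y hy v2 hv2.2.2)
        · exact Or.inr h
      have hzD : z ∉ D := by
        intro hz
        rcases hh1 with h | h
        · rcases hh2 with h' | h'
          · exact hv12 (h.trans h'.symm)
          · exact hindep z hz v2 hv2.2.2 h'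
        · exact hindep z hz v1 hv1.2.2 h
      have hz1 : G.Adj z v1 := by
        rcases hh1 with h | h
        · rw [h] at hv1; exact absurd hv1.2.2 hzD
        · exact h
      have hzo : z ∈ out G D v1 := (mem_out G D).2 ⟨hzD, hz1.symm⟩
      rw [himg v1 hv1.2.2, Finset.mem_image] at hzo
      obtain ⟨t, ht, htz⟩ := hzo
      rw [Finset.mem_erase] at ht
      have hty : y' = t := by
        by_contra hne'
        have := hζadj t ht.2 y' hy' hne'
        rw [htz] at this
        exact hP.2.1 this
      subst hty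
      obtain ⟨w, hw1, hw2, hw3, hw4⟩ := hγ y' (ζ y')
      rcases hP.2.2 w hw1 with h | h | h | h
      · rw [h] at hw4
        exact hw4 (hζadj y' hy' y hy hne)
      · rw [← htz] at h; exact hw2 h
      · have hwD : w ∉ D := fun hwD => hindep y hy w hwD h
        have hwo : w ∈ out G D y := (mem_out G D).2 ⟨hwD, h⟩
        rw [himg y hy, Finset.mem_image] at hwo
        obtain ⟨s, hs, hsw⟩ := hwo
        rw [Finset.mem_erase] at hs
        have hsy : y' ≠ s := by
          intro h'
          rw [← h'] at hsw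
          exact hw2 hsw.symm
        have := hζadj s hs.2 y' hy' hsy
        rw [hsw] at this
        exact hw3 this.symm
      · rw [← htz] at h; exact hw4 h
    have hc : 1 < D.card := by omega
    obtain ⟨y, hy, y', hy', hne⟩ := Finset.one_lt_card.1 hc
    rcases hcrit y y' hne (hindep y hy y' hy') with ⟨z, hz⟩ | ⟨z, hz⟩
    · exact key y hy y' hy' hne z hz
    · exact key y' hy' y hy (Ne.symm hne) z hz
  · rcases Nat.eq_zero_or_pos H.card with hh0 | hh0
    · -- Case II
      have hLD1 : L.card = (D1 G D).card := by omega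
      have hLfeq : Lf = D1 G D := by
        apply Finset.eq_of_subset_of_card_le hLfD1
        omega
      have hone : ∀ v ∈ D1 G D, (Qn G D v).card = 1 := by
        intro v hv
        rw [← hLfeq, hLfmem] at hv
        exact hv.2
      have hpar := parity G D hone
      have hne : D1 G D ≠ D := by
        intro h
        rw [h, hD] at hpar
        exact (Nat.not_even_iff_odd.2 (hre.add_one)) hpar
      obtain ⟨x, hx, hxD1⟩ : ∃ x ∈ D, x ∉ D1 G D := by
        by_contra hcon
        push Not at hcon
        exact hne (Finset.Subset.antisymm hD1D hcon)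
      have hxQ : Qn G D x = ∅ := by
        by_contra h
        exact hxD1 ((mem_D1 G D).2 ⟨hx, Finset.nonempty_iff_ne_empty.2 h⟩)
      have hxo : ∀ w, w ∉ D → ¬ G.Adj x w := by
        intro w hw hadj
        have h1 := hout x hx
        rw [hxQ] at h1
        have h2 : w ∈ out G D x := (mem_out G D).2 ⟨hw, hadj⟩
        have h3 := Finset.card_pos.2 ⟨w, h2⟩
        simp at h1
        rw [h1] at h2
        simp at h2
      have hxadj : ∀ v ∈ D, v ≠ x → G.Adj x v := by
        intro v hv hvx
        by_contra h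
        have : v ∈ Qn G D x := (mem_Qn G D).2 ⟨hv, hvx, h⟩
        rw [hxQ] at this
        simp at this
      have hLall : ∀ y ∈ D1 G D, y ∈ L := by
        intro y hy
        have : L = D1 G D := Finset.eq_of_subset_of_card_le (Finset.filter_subset _ _) (by omega)
        rw [this]; exact hy
      -- the unique non-neighbour of y in D is ζ y
      have hQζ : ∀ y ∈ D1 G D, Qn G D y = {ζ y} := by
        intro y hy
        have h1 : y ∈ Qn G D (ζ y) := by rw [hLQ y (hLall y hy)]; simp
        have h2 : ζ y ∈ Qn G D y := Qn_symm G D ((hLmem y).1 (hLall y hy)).2 h1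
        obtain ⟨g, hg⟩ := Finset.card_eq_one.1 (hone y hy)
        rw [hg] at h2 ⊢
        simp at h2
        rw [h2]
      have hζζ : ∀ y ∈ D1 G D, ζ y ∈ D1 G D ∧ ζ (ζ y) = y := by
        intro y hy
        have h1 : Qn G D (ζ y) = {y} := hLQ y (hLall y hy)
        have h2 : ζ y ∈ D1 G D := by
          rw [mem_D1, h1]
          exact ⟨((hLmem y).1 (hLall y hy)).2, by simp⟩
        refine ⟨h2, ?_⟩
        have h3 := hQζ _ h2
        rw [h1] at h3
        simpa using h3.symm
      obtain ⟨b, hbx, hbu, hb1, hb2⟩ := hγ x u0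
      have hbD : b ∉ D := fun hb => hb1 (hxadj b hb hbx)
      have hbadj : ∀ v ∈ D1 G D, G.Adj v b := by
        intro v hv
        have h1 := hζζ v hv
        have hby : b ≠ ζ v := fun h => hbD (h ▸ hD1D h1.1)
        rcases (hζ (ζ v) h1.1).2.2 b hby with h | h | h | h
        · exact absurd h hbu
        · rw [h1.2] at h; rw [h] at hbD; exact absurd (hD1D hv) hbD
        · exact absurd h hb2
        · rw [h1.2] at h; exact h
      have houtb : ∀ v ∈ D1 G D, out G D v = {b} := by
        intro v hv
        symm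
        apply Finset.eq_of_subset_of_card_le
        · intro w hw
          simp at hw
          rw [hw]
          exact (mem_out G D).2 ⟨hbD, hbadj v hv⟩
        · have := hout v (hD1D hv)
          rw [hone v hv] at this
          simpa using this
      have hnbD : ∀ v ∈ D, ∀ w, w ∉ D → G.Adj v w → v ∈ D1 G D ∧ w = b := by
        intro v hv w hw hadj
        have hv1 : v ∈ D1 G D := by
          by_contra hcon
          have hQ : Qn G D v = ∅ := by
            by_contra h
            exact hcon ((mem_D1 G D).2 ⟨hv, Finset.nonempty_iff_ne_empty.2 h⟩)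
          have h1 := hout v hv
          rw [hQ] at h1
          have h2 : w ∈ out G D v := (mem_out G D).2 ⟨hw, hadj⟩
          simp at h1
          rw [h1] at h2
          simp at h2
        refine ⟨hv1, ?_⟩
        have h2 : w ∈ out G D v := (mem_out G D).2 ⟨hw, hadj⟩
        rw [houtb v hv1] at h2
        simpa using h2
      have hDne : D.Nonempty := ⟨x, hx⟩
      have hDuniv : D ≠ univ := by
        intro h; rw [h] at hbD; exact hbD (Finset.mem_univ b)
      obtain ⟨a, ha, a', ha', haa⟩ := hconn D hDne hDuniv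
      have haD1 := (hnbD a ha a' ha' haa).1
      have hIb : insert b D ≠ univ := by
        intro h
        have h1 : (insert b D).card = Fintype.card V := by rw [h, Finset.card_univ]
        rw [Finset.card_insert_of_notMem hbD, hD] at h1
        nlinarith
      obtain ⟨p, hp, c, hc, hpc⟩ := hconn (insert b D) ⟨b, by simp⟩ hIb
      have hcD : c ∉ D := fun h => hc (Finset.mem_insert_of_mem h)
      have hcb : c ≠ b := fun h => hc (by rw [h]; simp)
      have hbc : G.Adj b c := by
        rw [Finset.mem_insert] at hp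
        rcases hp with h | h
        · rw [← h]; exact hpc
        · exact absurd (hnbD p h c hcD hpc).2 hcb
      have hcU : c ∈ U := by
        rw [memU]
        refine ⟨hcD, fun v hv hadj => ?_⟩
        exact hcb (hnbD v hv c hcD hadj).2
      have hcU' := (memU c).1 hcU
      have haD := hD1D haD1
      have hac : a ≠ c := fun h => hcD (h ▸ haD)
      rcases hcrit a c hac (hcU'.2 a haD) with ⟨z, hz⟩ | ⟨z, hz⟩
      · have h1 := hfa a haD c hcU z hz (ζ a) (by rw [hQζ a haD1]; simp)
        rw [houtb _ (hζζ a haD1).1] at h1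
        simp at h1
        rw [h1] at hz
        exact hz.2.1 hbc
      · have hxa : x ≠ a := fun h => hxD1 (h ▸ haD1)
        have hzD : z ∈ D := by
          rcases hz.2.2 x hxa with h | h | h | h
          · exact absurd (h ▸ hx) hcD
          · rw [← h]; exact hx
          · exact absurd h.symm (hcU'.2 x hx)
          · by_contra hzD
            exact hxo z hzD h.symm
        have hzQ : z ∈ Qn G D a := (mem_Qn G D).2 ⟨hzD, hz.1, fun h => hz.2.1 h.symm⟩
        rw [hQζ a haD1] at hzQ
        simp at hzQ
        obtain ⟨w, hw1, hw2, hw3, hw4⟩ := hγ x c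
        have hwD : w ∉ D := fun hw => hw3 (hxadj w hw hw1)
        have hwa : w ≠ a := fun h => hwD (h ▸ haD)
        rcases hz.2.2 w hwa with h | h | h | h
        · exact hw2 h
        · exact hwD (h ▸ hzD)
        · exact hw4 h
        · have h5 := (hnbD z hzD w hwD h).2
          rw [h5] at hw4
          exact hw4 hbc.symm
    · -- one or two hubs
      have hHne : 0 < H.card := hh0
      have hQ1 : ∀ v ∈ D, 1 ≤ (Qn G D v).card := by
        intro v hv
        by_cases hvH : v ∈ H
        · have := ((mem_D1 G D).1 ((hHmem v).1 hvH).1).2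
          exact Finset.card_pos.2 this
        · have := hHQ v hv
          rw [Finset.erase_eq_of_notMem hvH] at this
          omega
      have hD1 := hD1of hQ1
      rcases Nat.lt_or_ge 1 H.card with hh1 | hh1
      · -- two hubs
        have hsub : Lf ⊆ H := by
          intro v hv
          rw [hLfmem] at hv
          by_contra hvH
          have := hHQ v hv.1
          rw [Finset.erase_eq_of_notMem hvH] at this
          omega
        have h1 := Finset.card_le_card hsub
        rw [hD1, hD] at hHL
        omega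
      · -- one hub
        have hH1 : H.card = 1 := by omega
        rw [hD1, hD] at hHL
        by_cases hall : ∀ v ∈ D, (Qn G D v).card = 1
        · have hpar := parity G D (by rw [hD1]; exact hall)
          rw [hD1, hD] at hpar
          exact (Nat.not_even_iff_odd.2 (hre.add_one)) hpar
        · push Not at hall
          obtain ⟨t, ht, ht1⟩ := hall
          have htLf : t ∉ Lf := fun h => ht1 ((hLfmem t).1 h).2
          have hLfsub : Lf ⊆ D.erase t := by
            intro v hv
            rw [Finset.mem_erase]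
            exact ⟨fun h => htLf (h ▸ hv), ((hLfmem v).1 hv).1⟩
          have hLfc := Finset.card_le_card hLfsub
          rw [Finset.card_erase_of_mem ht, hD] at hLfc
          have hLfeq : Lf = D.erase t := by
            apply Finset.eq_of_subset_of_card_le hLfsub
            rw [Finset.card_erase_of_mem ht, hD]
            omega
          have himage : L.image ζ = Lf := by
            apply Finset.eq_of_subset_of_card_le
            · intro w hw
              rw [Finset.mem_image] at hw
              obtain ⟨y, hy, rfl⟩ := hw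
              exact hLmap y hy
            · rw [Finset.card_image_of_injOn hLinj]
              omega
          have ht2 : 1 < (Qn G D t).card := by
            have := hQ1 t ht
            omega
          obtain ⟨z1, hz1, z2, hz2, hz12⟩ := Finset.one_lt_card.1 ht2
          have hfin : ∀ z ∈ Qn G D t, z = ζ t := by
            intro z hz
            have hz' := (mem_Qn G D).1 hz
            have hzLf : z ∈ Lf := by
              rw [hLfeq, Finset.mem_erase]
              exact ⟨hz'.2.1, hz'.1⟩
            rw [← himage, Finset.mem_image] at hzLf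
            obtain ⟨y, hy, hyz⟩ := hzLf
            have h1 := hLQ y hy
            have h2 := Qn_symm G D ht hz
            rw [← hyz, h1] at h2
            simp at h2
            rw [h2, hyz]
          exact hz12 ((hfin z1 hz1).trans (hfin z2 hz2).symm)

end core

section final

variable {V : Type} [Fintype V] [DecidableEq V] (G : SimpleGraph V)

lemma conn_edge (hc : G.Connected) (A : Finset V) (hA : A.Nonempty) (hA' : A ≠ univ) :
    ∃ a ∈ A, ∃ b, b ∉ A ∧ G.Adj a b := by
  by_contra hcon
  push Not at hcon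
  obtain ⟨a, ha⟩ := hA
  obtain ⟨c, hc'⟩ : ∃ c, c ∉ A := by
    by_contra h
    push Not at h
    exact hA' (Finset.eq_univ_iff_forall.2 h)
  obtain ⟨w⟩ := hc.preconnected a c
  have key : ∀ (x y : V), G.Walk x y → x ∈ A → y ∈ A := by
    intro x y p
    induction p with
    | nil => exact fun h => h
    | cons h p ih =>
      intro hx
      apply ih
      by_contra h'
      exact hcon _ hx _ h' h
  exact hc' (key a c w ha)

lemma part_one (r : ℕ) (hre : Even r) (hr : 4 ≤ r) (hc : G.Connected) (h : EdgeCritical 3 G)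
    (hn : 2 * (r + 1) ^ 2 ≤ Fintype.card V) : lowDeg G r ≤ r := by
  classical
  by_contra hcon
  push Not at hcon
  set S : Finset V := univ.filter (fun v => (G.neighborSet v).ncard ≤ r) with hS
  have h1 : lowDeg G r = S.card := by
    unfold lowDeg
    rw [Set.ncard_eq_toFinset_card']
    congr 1
    ext v
    simp [hS]
  rw [h1] at hcon
  obtain ⟨D, hDS, hD⟩ := Finset.exists_subset_card_eq (show r + 1 ≤ S.card by omega)
  apply core G D hr hre hn (conn_edge G hc) (gamma_three G h) (crit_pair G h) hD
  intro v hv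
  have h2 := hDS hv
  simp only [hS, mem_filter, mem_univ, true_and] at h2
  have h3 : (nb G v).card = (G.neighborSet v).ncard := by
    rw [Set.ncard_eq_toFinset_card']
    congr 1
    ext w
    simp [nb]
  omega

end final

section example_

/-- disjoint union of the cocktail party graph on `2k` vertices and `K_m` -/
def ex (k m : ℕ) : SimpleGraph ((Fin k × Bool) ⊕ Fin m) where
  Adj x y := match x, y with
    | Sum.inl p, Sum.inl q => p.1 ≠ q.1
    | Sum.inr a, Sum.inr b => a ≠ b
    | Sum.inl _, Sum.inr _ => False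
    | Sum.inr _, Sum.inl _ => False
  symm := by
    constructor
    rintro (p | a) (q | b) h
    · exact Ne.symm h
    · exact h
    · exact h
    · exact Ne.symm h
  loopless := by
    constructor
    rintro (p | a) h
    · exact h rfl
    · exact h rfl

variable {k m : ℕ}

lemma ex_ll (p q : Fin k × Bool) : (ex k m).Adj (Sum.inl p) (Sum.inl q) ↔ p.1 ≠ q.1 := Iff.rfl
lemma ex_rr (a b : Fin m) : (ex k m).Adj (Sum.inr a) (Sum.inr b) ↔ a ≠ b := Iff.rfl
lemma ex_lr (p : Fin k × Bool) (b : Fin m) : ¬ (ex k m).Adj (Sum.inl p) (Sum.inr b) := fun h => h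
lemma ex_rl (p : Fin k × Bool) (b : Fin m) : ¬ (ex k m).Adj (Sum.inr b) (Sum.inl p) := fun h => h

lemma ex_three (hk : 0 < k) (hm : 0 < m) (S : Finset ((Fin k × Bool) ⊕ Fin m))
    (hS : Dominating (ex k m) S) : 3 ≤ S.card := by
  obtain ⟨p, hp⟩ : ∃ p : Fin k × Bool, Sum.inl p ∈ S := by
    by_cases h : (Sum.inl (⟨0, hk⟩, true) : (Fin k × Bool) ⊕ Fin m) ∈ S
    · exact ⟨_, h⟩
    · obtain ⟨u, hu, hadj⟩ := hS _ h
      rcases u with q | b
      · exact ⟨q, hu⟩
      · exact absurd hadj (ex_rl _ _)
  obtain ⟨q, hq, hpq⟩ : ∃ q : Fin k × Bool, Sum.inl q ∈ S ∧ q ≠ p := by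
    by_cases h : (Sum.inl (p.1, !p.2) : (Fin k × Bool) ⊕ Fin m) ∈ S
    · refine ⟨_, h, fun h' => ?_⟩
      have := congrArg Prod.snd h'
      simp at this
    · obtain ⟨u, hu, hadj⟩ := hS _ h
      rcases u with q | b
      · refine ⟨q, hu, fun h' => ?_⟩
        rw [ex_ll, h'] at hadj
        exact hadj rfl
      · exact absurd hadj (ex_rl _ _)
  obtain ⟨a, ha⟩ : ∃ a : Fin m, Sum.inr a ∈ S := by
    by_cases h : (Sum.inr ⟨0, hm⟩ : (Fin k × Bool) ⊕ Fin m) ∈ S
    · exact ⟨_, h⟩
    · obtain ⟨u, hu, hadj⟩ := hS _ h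
      rcases u with q | b
      · exact absurd hadj (ex_lr _ _)
      · exact ⟨b, hu⟩
  have : 2 < S.card := by
    rw [Finset.two_lt_card]
    exact ⟨Sum.inl p, hp, Sum.inl q, hq, Sum.inr a, ha, fun h => hpq (Sum.inl.inj h).symm,
      Sum.inl_ne_inr, Sum.inl_ne_inr⟩
  omega

lemma ex_dom (hk : 0 < k) (hm : 0 < m) : domNum (ex k m) = 3 := by
  classical
  apply le_antisymm
  · have : Dominating (ex k m) {Sum.inl (⟨0, hk⟩, true), Sum.inl (⟨0, hk⟩, false),
        Sum.inr ⟨0, hm⟩} := by
      intro v hv
      rcases v with p | a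
      · refine ⟨Sum.inl (⟨0, hk⟩, true), by simp, ?_⟩
        rw [ex_ll]
        intro h
        apply hv
        obtain ⟨i, s⟩ := p
        simp only at h
        subst h
        cases s <;> simp
      · refine ⟨Sum.inr ⟨0, hm⟩, by simp, ?_⟩
        rw [ex_rr]
        intro h
        apply hv
        rw [← h]
        simp
    have h2 : domNum (ex k m) ≤ ({Sum.inl (⟨0, hk⟩, true), Sum.inl (⟨0, hk⟩, false),
        Sum.inr ⟨0, hm⟩} : Finset ((Fin k × Bool) ⊕ Fin m)).card := Nat.sInf_le ⟨_, this, rfl⟩
    exact h2.trans Finset.card_le_three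
  · have hne : {j | ∃ S : Finset ((Fin k × Bool) ⊕ Fin m),
        Dominating (ex k m) S ∧ S.card = j}.Nonempty :=
      ⟨_, Finset.univ, fun v hv => absurd (Finset.mem_univ v) hv, rfl⟩
    apply le_csInf hne
    rintro j ⟨S, hS, rfl⟩
    exact ex_three hk hm S hS

lemma dom_lt_three {W : Type} (G : SimpleGraph W) [DecidableEq W] (a b : W)
    (h : Dominating G {a, b}) : domNum G < 3 := by
  have h1 : domNum G ≤ ({a, b} : Finset W).card := Nat.sInf_le ⟨_, h, rfl⟩
  have h2 : ({a, b} : Finset W).card ≤ 2 := Finset.card_le_two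
  omega

lemma ex_crit (hk : 0 < k) (hm : 0 < m) : EdgeCritical 3 (ex k m) := by
  classical
  refine ⟨ex_dom hk hm, ?_⟩
  have key : ∀ (p : Fin k × Bool) (a : Fin m) (G' : SimpleGraph ((Fin k × Bool) ⊕ Fin m)),
      ex k m ≤ G' → G'.Adj (Sum.inr a) (Sum.inl p) → domNum G' < 3 := by
    intro p a G' hle hadj
    apply dom_lt_three G' (Sum.inr a) (Sum.inl (p.1, !p.2))
    intro v hv
    simp only [mem_insert, mem_singleton, not_or] at hv
    rcases v with q | b
    · by_cases hq : q.1 = p.1
      · have : q = p := by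
          have h2 : q ≠ (p.1, !p.2) := fun h => hv.2 (by rw [h])
          have h3 : q.2 = p.2 := by
            by_contra h4
            apply h2
            refine Prod.ext (x := q) (y := (p.1, !p.2)) hq ?_
            show q.2 = !p.2
            cases hq2 : q.2 <;> cases hp2 : p.2 <;> simp_all
          exact Prod.ext hq h3
        rw [this]
        exact ⟨Sum.inr a, by simp, hadj⟩
      · exact ⟨Sum.inl (p.1, !p.2), by simp, hle ((ex_ll _ _).2 (fun h => hq h.symm))⟩
    · refine ⟨Sum.inr a, by simp, hle ((ex_rr _ _).2 ?_)⟩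
      intro h
      exact hv.1 (by rw [h])
  intro u v huv hadj
  have hle : ex k m ≤ ex k m ⊔ SimpleGraph.edge u v := le_sup_left
  have hnew : (ex k m ⊔ SimpleGraph.edge u v).Adj u v := by
    right
    rw [SimpleGraph.edge_adj]
    exact ⟨Or.inl ⟨rfl, rfl⟩, huv⟩
  rcases u with p | a
  · rcases v with q | b
    · rw [ex_ll] at hadj
      push Not at hadj
      apply dom_lt_three _ (Sum.inl p) (Sum.inr ⟨0, hm⟩)
      intro v hv
      simp only [mem_insert, mem_singleton, not_or] at hv
      rcases v with t | b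
      · refine ⟨Sum.inl p, by simp, ?_⟩
        by_cases ht : t.1 = p.1
        · have hpq : p ≠ q := fun h => huv (by rw [h])
          have htp : t ≠ p := fun h => hv.1 (by rw [h])
          have : t = q := by
            apply Prod.ext (ht.trans hadj)
            have h1 : p.2 ≠ q.2 := fun h => hpq (Prod.ext hadj h)
            have h2 : t.2 ≠ p.2 := fun h => htp (Prod.ext ht h)
            cases h3 : t.2 <;> cases h4 : q.2 <;> cases h5 : p.2 <;> simp_all
          rw [this]
          exact hnew
        · exact hle ((ex_ll _ _).2 (fun h => ht h.symm))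
      · refine ⟨Sum.inr ⟨0, hm⟩, by simp, hle ((ex_rr _ _).2 ?_)⟩
        intro h
        exact hv.2 (by rw [h])
    · exact key p b _ hle hnew.symm
  · rcases v with q | b
    · exact key q a _ hle hnew
    · rw [ex_rr] at hadj
      push Not at hadj
      exact absurd (by rw [hadj]) huv

lemma ex_deg (p : Fin k × Bool) : ((ex k m).neighborSet (Sum.inl p)).ncard ≤ 2 * (k - 1) := by
  classical
  have h1 : (ex k m).neighborSet (Sum.inl p) ⊆
      ((((Finset.univ.erase p.1) ×ˢ (Finset.univ : Finset Bool)).image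
        (Sum.inl : Fin k × Bool → (Fin k × Bool) ⊕ Fin m) : Finset _) : Set _) := by
    intro v hv
    rcases v with q | b
    · have h2 : p.1 ≠ q.1 := hv
      simp only [Finset.coe_image, Set.mem_image, Finset.mem_coe, Finset.mem_product,
        Finset.mem_erase]
      exact ⟨q, ⟨⟨h2.symm, Finset.mem_univ _⟩, Finset.mem_univ _⟩, rfl⟩
    · exact absurd hv (ex_lr p b)
  refine (Set.ncard_le_ncard h1 (Finset.finite_toSet _)).trans ?_
  rw [Set.ncard_coe_finset]
  refine Finset.card_image_le.trans ?_
  rw [Finset.card_product, Finset.card_erase_of_mem (Finset.mem_univ _)]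
  simp
  omega

lemma ex_low (r : ℕ) (hkr : 2 * (k - 1) ≤ r) : 2 * k ≤ lowDeg (ex k m) r := by
  classical
  unfold lowDeg
  have h1 : (((Finset.univ : Finset (Fin k × Bool)).image
      (Sum.inl : Fin k × Bool → (Fin k × Bool) ⊕ Fin m) : Finset _) : Set _) ⊆
      {v | ((ex k m).neighborSet v).ncard ≤ r} := by
    intro v hv
    simp only [Finset.coe_image, Set.mem_image] at hv
    obtain ⟨p, _, rfl⟩ := hv
    exact (ex_deg p).trans hkr
  have h2 := Set.ncard_le_ncard h1 (Set.toFinite _)
  rw [Set.ncard_coe_finset, Finset.card_image_of_injective _ Sum.inl_injective] at h2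
  simp at h2
  omega

lemma ex_not_conn (hk : 0 < k) (hm : 0 < m) : ¬ (ex k m).Connected := by
  classical
  intro h
  obtain ⟨a, ha, b, hb, hadj⟩ := conn_edge (ex k m) h
    ((Finset.univ : Finset (Fin k × Bool)).image Sum.inl)
    ⟨Sum.inl (⟨0, hk⟩, true), by simp⟩
    (by
      intro h'
      have : (Sum.inr ⟨0, hm⟩ : (Fin k × Bool) ⊕ Fin m) ∈
          ((Finset.univ : Finset (Fin k × Bool)).image Sum.inl) := by
        rw [h']; exact Finset.mem_univ _
      simp at this)
  rcases a with p | a
  · rcases b with q | b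
    · apply hb
      simp
    · exact ex_lr _ _ hadj
  · simp at ha

end example_

/-- **Main theorem.** (1) For every even `r ≥ 4`, every connected 3-edge-critical graph with at
least `2(r+1)²` vertices has at most `r` vertices of degree at most `r`.
(2) Connectedness cannot be dropped: for every even `r ≥ 4` there are arbitrarily large
(disconnected) 3-edge-critical graphs with at least `r + 2` vertices of degree at most `r`. -/
theorem result :
    (∀ r : ℕ, Even r → 4 ≤ r → ∀ (V : Type) [Fintype V] (G : SimpleGraph V), G.Connected →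
      EdgeCritical 3 G → 2 * (r + 1) ^ 2 ≤ Fintype.card V → lowDeg G r ≤ r) ∧
    (∀ r : ℕ, Even r → 4 ≤ r → ∀ N : ℕ, ∃ (V : Type) (_ : Fintype V) (G : SimpleGraph V),
      N ≤ Fintype.card V ∧ EdgeCritical 3 G ∧ ¬ G.Connected ∧ r + 2 ≤ lowDeg G r) := by
  classical
  refine ⟨?_, ?_⟩
  · intro r hre hr V _ G hc h hn
    exact part_one G r hre hr hc h hn
  · intro r hre hr N
    obtain ⟨j, hj⟩ := hre
    refine ⟨(Fin (j + 1) × Bool) ⊕ Fin (N + 1), inferInstance, ex (j + 1) (N + 1), ?_,
      ex_crit (Nat.succ_pos j) (Nat.succ_pos N), ex_not_conn (Nat.succ_pos j) (Nat.succ_pos N), ?_⟩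
    · simp
      omega
    · have := ex_low (k := j + 1) (m := N + 1) r (by omega)
      omega

end Pool.Agent.Results.MP_39baa9_co.SmallDegree
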